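import Pool.Agent.Helper97.GS.Restr

/-!
# Project GS: the constants `z i j` and their inertia property, over a larger field
-/

universe u v

set_option linter.unusedSectionVars false

namespace Pool.Agent.GS

open Polynomial Pool.Agent.Helper37.UL Pool.Agent.BT Pool.Agent.OPG

section of_map

variable {k C : Type u} [Field k] [Field C] (θ : k →+* C)

theorem discV_of_map {N M₁ M₂ : ℕ} {ρ : Fin (N + 2) → ℕ}
    {s : ∀ v, Fin (ρ v) → Fin (M₂ + 1) → k} {R V V' : Fin (M₁ + 1) → k}
    {A B : Fin (N + 2) → Fin (M₂ + 1) → Fin (M₂ + 1) → k} {e₁ : ℕ}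
    (h : DiscV (fun v j i => θ (s v j i)) (fun i => θ (R i)) (fun i => θ (V i)) (fun i => θ (V' i))
      (fun v j i => θ (A v j i)) (fun v j i => θ (B v j i)) e₁) : DiscV s R V V' A B e₁ := by
  have hinj : Function.Injective (Polynomial.map θ) := Polynomial.map_injective θ θ.injective
  have hinj2 : Function.Injective (Polynomial.map (mapRingHom θ)) :=
    Polynomial.map_injective _ hinj
  refine ⟨h.deg, ?_, hinj ?_, fun v => hinj2 ?_⟩
  · intro h0
    exact h.lead (by rw [h0, map_zero])
  · rw [Polynomial.map_add, Polynomial.map_mul, Polynomial.map_mul, ← derivative_map,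
      map_polU, map_polU, map_polU, Polynomial.map_one]
    exact h.sep
  · rw [Polynomial.map_add, Polynomial.map_mul, Polynomial.map_mul, ← derivative_map,
      map_polYX, map_polYX, map_monYX, map_C, map_pow, coe_mapRingHom, map_polU]
    exact h.eq v

end of_map

section adj

variable {k' C' k C : Type u} [Field k'] [Field C'] [Algebra k' C'] [IsAlgClosure k' C'] [Field k]
  [Field C] [Algebra k C] (ψ : C' →+* C) {Kb : Subfield k}
  (hKb : Kb.map (algebraMap k C) = (ψ.comp (algebraMap k' C')).fieldRange)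

include hKb

/-- generated subfields -/
theorem map_mem_adjoin {X' : Set C'} {X : Set C} (hX : ∀ x ∈ X', ψ x ∈ X) {y : C'}
    (hy : y ∈ IntermediateField.adjoin k' X') : ψ y ∈ IntermediateField.adjoin k X := by
  induction hy using IntermediateField.adjoin_induction with
  | mem x hx => exact IntermediateField.subset_adjoin k X (hX x hx)
  | algebraMap a =>
    obtain ⟨b, _, hb⟩ := kb_mem' ψ hKb a
    rw [← hb]
    exact (IntermediateField.adjoin k X).algebraMap_mem b
  | add x y _ _ h1 h2 => rw [map_add]; exact add_mem h1 h2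
  | inv x _ h1 => rw [map_inv₀]; exact inv_mem h1
  | mul x y _ _ h1 h2 => rw [map_mul]; exact mul_mem h1 h2

theorem map_mem_adjoin_mu {p : ℕ} {X' : Set C'} {X : Set C} (hX : ∀ x ∈ X', ψ x ∈ X) {y : C'}
    (hy : y ∈ IntermediateField.adjoin k' (PL.mu C' p ∪ X')) :
    ψ y ∈ IntermediateField.adjoin k (PL.mu C p ∪ X) := by
  refine map_mem_adjoin ψ hKb ?_ hy
  rintro x (hx | hx)
  · left
    change ψ x ^ p = 1
    rw [← map_pow]
    have h1 : x ^ p = 1 := hx
    rw [h1, map_one]
  · exact Or.inr (hX x hx)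

end adj

section inert

variable {k' C' k C : Type u} [Field k'] [Field C'] [Algebra k' C'] [IsAlgClosure k' C'] [Field k]
  [Field C] [Algebra k C] (ψ : C' →+* C)

/-- restriction of inertia, when the valuation is not trivial on the small field -/
theorem inert_restr {P : ValuationSubring C} {σ : C ≃+* C} (hσ : Inert (algebraMap k C).fieldRange P σ)
    {σ' : C' ≃ₐ[k'] C'} (hσ' : ∀ y, ψ (σ' y) = σ (ψ y)) :
    Inert (algebraMap k' C').fieldRange (P.comap ψ) (σ' : C' ≃+* C') := by
  refine ⟨?_, fun x => ?_, fun x hx => ?_⟩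
  · rintro _ ⟨a, rfl⟩
    exact σ'.commutes a
  · change ψ (σ' x) ∈ P ↔ ψ x ∈ P
    rw [hσ']
    exact hσ.dec _
  · have h1 := hσ.res (ψ x) hx
    change (P.comap ψ).valuation (σ' x - x) < 1
    rw [← hσ', ← map_sub] at h1
    rw [← ValuationSubring.mem_nonunits_iff] at h1 ⊢
    rw [ValuationSubring.mem_nonunits_iff_exists_mem_maximalIdeal] at h1 ⊢
    obtain ⟨h2, h3⟩ := h1
    refine ⟨h2, ?_⟩
    rw [IsLocalRing.mem_maximalIdeal, mem_nonunits_iff] at h3 ⊢
    intro hu
    apply h3
    let φ : (P.comap ψ) →+* P :=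
      (ψ.comp (P.comap ψ).subtype).codRestrict P.toSubring fun x => x.2
    exact hu.map φ

/-- an inertia automorphism is trivial on a small field on which the valuation is trivial -/
theorem inert_trivial {P : ValuationSubring C} {σ : C ≃+* C} (hσ : Inert (algebraMap k C).fieldRange P σ)
    {σ' : C' ≃ₐ[k'] C'} (hσ' : ∀ y, ψ (σ' y) = σ (ψ y)) (hP : P.comap ψ = ⊤) (y : C') :
    σ (ψ y) = ψ y := by
  by_contra hne
  have hmem : ∀ x : C', ψ x ∈ P := fun x => by
    have : x ∈ P.comap ψ := by rw [hP]; trivial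
    exact this
  have h1 := hσ.res (ψ y) (hmem y)
  rw [← hσ', ← map_sub] at h1
  have h0 : ψ (σ' y - y) ≠ 0 := by
    rw [map_sub, hσ']
    exact sub_ne_zero.2 hne
  have h2 := (P.valuation_le_one_iff _).2 (hmem (σ' y - y)⁻¹)
  rw [map_inv₀, map_inv₀] at h2
  have h3 : 1 ≤ P.valuation (ψ (σ' y - y)) :=
    (inv_le_one₀ (zero_lt_iff.2 ((Valuation.ne_zero_iff _).2 h0))).1 h2
  exact absurd h1 (not_lt.2 h3)

end inert

section lev

variable {k₁ k' C' F k C : Type u} [Field k₁] [Field k'] [Field C']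
    [Algebra k₁ k'] [Algebra k' C'] [IsAlgClosure k' C'] [Field F] [Field k] [Field C] [Algebra F k]
    [Algebra k C] (ψ : C' →+* C) {Kb : Subfield k}
    (hKb : Kb.map (algebraMap k C) = (ψ.comp (algebraMap k' C')).fieldRange)
    (hk₁ : ∀ a : k₁, ∃ b : F, algebraMap k C (algebraMap F k b) =
      ψ (algebraMap k' C' (algebraMap k₁ k' a)))

include hKb hk₁

/-- **The inertia property over a larger field.** -/
theorem levG_of_small {N df d n M M₃ : ℕ} {U : Type} [Fintype U] {e : U → ℕ}
    {f : MonV (N + 2) df → k'} {rel : ∀ u, MonV (N + 2) (e u) → k'}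
    {f₂ : MonV (N + 2) df → k} {rel₂ : ∀ u, MonV (N + 2) (e u) → k}
    (hf : ∀ q, algebraMap k C (f₂ q) = ψ (algebraMap k' C' (f q)))
    (hrel : ∀ u q, algebraMap k C (rel₂ u q) = ψ (algebraMap k' C' (rel u q)))
    {G : Fin d → MonV (N + 2) n → C'} {D : Fin d → MonV (N + 2) M → C'}
    {c : Fin d → Fin (M₃ + 1) → C'} {z : Fin d → Fin d → C'}
    (h : LevG k₁ (⊤ : Subfield k') f rel G D c z) :
    LevG F Kb f₂ rel₂ (fun i q => ψ (G i q)) (fun i q => ψ (D i q)) (fun i l => ψ (c i l))
      (fun i j => ψ (z i j)) := by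
  intro M₁ M₂ m e₁ e₂ ρ S R V V' A B H H' hS hR hV hV' hA hB hdisc hsub P hPtop hFP hgood i j hij hGi
    hGj hDi hDj hci hcj σ hσ hσi hσj
  choose S' hS' using fun v j i => kb_mem ψ hKb (hS v j i)
  choose R' hR' using fun i => kb_mem ψ hKb (hR i)
  choose V₁ hV₁ using fun i => kb_mem ψ hKb (hV i)
  choose V₂ hV₂ using fun i => kb_mem ψ hKb (hV' i)
  choose A' hA' using fun v j i => kb_mem ψ hKb (hA v j i)
  choose B' hB' using fun v j i => kb_mem ψ hKb (hB v j i)
  have hσk : ∀ a : k', σ (ψ (algebraMap k' C' a)) = ψ (algebraMap k' C' a) := by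
    intro a
    obtain ⟨b, _, hb⟩ := kb_mem' ψ hKb a
    rw [← hb]
    exact hσ.fix _ ⟨b, rfl⟩
  obtain ⟨σ', hσ'⟩ := exists_restr ψ (σ : C →+* C) hσk
  have hσ'' : ∀ y, ψ (σ' y) = σ (ψ y) := hσ'
  by_cases hP : P.comap ψ = ⊤
  · exact inert_trivial ψ hσ hσ'' hP _
  -- the data over `k'`
  have hdisc' : DiscV S' R' V₁ V₂ A' B' e₁ := by
    apply discV_of_map (ψ.comp (algebraMap k' C'))
    have h1 := hdisc.map (algebraMap k C)
    have e1 : (fun v j i => algebraMap k C (S v j i)) = fun v j i =>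
        (ψ.comp (algebraMap k' C')) (S' v j i) := by
      funext v j i; exact hS' v j i
    have e2 : (fun i => algebraMap k C (R i)) = fun i => (ψ.comp (algebraMap k' C')) (R' i) := by
      funext i; exact hR' i
    have e3 : (fun i => algebraMap k C (V i)) = fun i => (ψ.comp (algebraMap k' C')) (V₁ i) := by
      funext i; exact hV₁ i
    have e4 : (fun i => algebraMap k C (V' i)) = fun i => (ψ.comp (algebraMap k' C')) (V₂ i) := by
      funext i; exact hV₂ i
    have e5 : (fun v j i => algebraMap k C (A v j i)) = fun v j i =>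
        (ψ.comp (algebraMap k' C')) (A' v j i) := by
      funext v j i; exact hA' v j i
    have e6 : (fun v j i => algebraMap k C (B v j i)) = fun v j i =>
        (ψ.comp (algebraMap k' C')) (B' v j i) := by
      funext v j i; exact hB' v j i
    rw [e1, e2, e3, e4, e5, e6] at h1
    exact h1
  have hsub' : ∀ v, ∃ (H₀ : MonV (N + 2) m → k') (H₀' : U → MonV (N + 2) m → k'),
      subV N v (monYX (S' v)) ^ e₂ = comb f rel H₀ H₀' := by
    intro v
    let iA : Algebra k' C := (ψ.comp (algebraMap k' C')).toAlgebra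
    have hiA : algebraMap k' C = ψ.comp (algebraMap k' C') := rfl
    refine comb_descend (F := k') (L := C) (H := fun q => algebraMap k C (H v q))
      (H' := fun u q => algebraMap k C (H' v u q)) ?_
    have h1 := congrArg (MvPolynomial.map (algebraMap k C)) (hsub v)
    rw [map_pow, map_subV, map_monYX, map_comb] at h1
    rw [map_pow, map_subV, map_monYX, hiA]
    have e1 : (fun j i => algebraMap k C (S v j i)) = fun j i =>
        (ψ.comp (algebraMap k' C')) (S' v j i) := by
      funext j i; exact hS' v j i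
    have e2 : (fun q => algebraMap k C (f₂ q)) = fun q => (ψ.comp (algebraMap k' C')) (f q) := by
      funext q; exact hf q
    have e3 : (fun u q => algebraMap k C (rel₂ u q)) = fun u q =>
        (ψ.comp (algebraMap k' C')) (rel u q) := by
      funext u q; exact hrel u q
    rw [e1, e2, e3] at h1
    exact h1
  choose H₀ H₀' hH₀ using hsub'
  have hmem : ∀ y : C', y ∈ P.comap ψ ↔ ψ y ∈ P := fun y => Iff.rfl
  have hinj : Function.Injective ψ := ψ.injective
  have hgood' : GoodV (P.comap ψ) S' R' V₁ V₂ B' := by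
    refine ⟨fun v j i => ?_, fun i => ?_, ?_, fun i => ?_, fun i => ?_, fun v j i => ?_⟩
    · rw [hmem, ← hS']; exact hgood.s_mem v j i
    · rw [hmem, ← hR']; exact hgood.R_mem i
    · rw [hmem, map_inv₀, ← hR']; exact hgood.R_lead
    · rw [hmem, ← hV₁]; exact hgood.V_mem i
    · rw [hmem, ← hV₂]; exact hgood.V'_mem i
    · rw [hmem, ← hB']; exact hgood.B_mem v j i
  have hc' : ∀ i, (∃ l, ψ (c i l) ≠ 0 ∧ (ψ (c i l))⁻¹ ∈ P) →
      ∃ l, c i l ≠ 0 ∧ (c i l)⁻¹ ∈ P.comap ψ := by
    rintro i ⟨l, h1, h2⟩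
    refine ⟨l, fun h0 => h1 (by rw [h0, map_zero]), ?_⟩
    rw [hmem, map_inv₀]
    exact h2
  have h2 := h (H := H₀) (H' := H₀') (fun _ _ _ => trivial) (fun _ => trivial) (fun _ => trivial)
    (fun _ => trivial) (fun _ _ _ => trivial) (fun _ _ _ => trivial) hdisc' hH₀ (P.comap ψ) hP
    (fun a => by
      obtain ⟨b, hb⟩ := hk₁ a
      rw [hmem, ← hb]
      exact hFP b) hgood' i j hij hGi hGj hDi hDj (hc' i hci) (hc' j hcj) (σ' : C' ≃+* C')
    (inert_restr ψ hσ hσ'') (fun q => hinj (by
      change ψ (σ' (G i q)) = _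
      rw [hσ'']
      exact hσi q)) (fun q => hinj (by
      change ψ (σ' (G j q)) = _
      rw [hσ'']
      exact hσj q))
  have h3 : ψ (σ' (z i j)) = ψ (z i j) := congrArg ψ h2
  rw [hσ''] at h3
  exact h3

end lev

end Pool.Agent.GS
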