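import Pool.Agent.Helper13.OPG.L
import Pool.Agent.Helper37.PC.Hahn
import Pool.Agent.Helper13.BT.N4

/-!
# Project GS: restriction of automorphisms to the algebraic closure of a small field
-/

universe u v

set_option linter.unusedSectionVars false

namespace Pool.Agent.GS

open IntermediateField Pool.Agent.Helper37.UL Pool.Agent.BT

section alg

variable {k' C' k C : Type u} [Field k'] [Field C'] [Algebra k' C'] [IsAlgClosure k' C'] [Field k]
  [Field C] [Algebra k C] (ψ : C' →+* C) {Kb : Subfield k}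
  (hKb : Kb.map (algebraMap k C) = (ψ.comp (algebraMap k' C')).fieldRange)

include hKb

theorem kb_mem {y : k} (hy : y ∈ Kb) : ∃ y' : k', algebraMap k C y = ψ (algebraMap k' C' y') := by
  have h1 : algebraMap k C y ∈ Kb.map (algebraMap k C) := ⟨y, hy, rfl⟩
  rw [hKb] at h1
  obtain ⟨y', hy'⟩ := h1
  exact ⟨y', hy'.symm⟩

theorem kb_mem' (y' : k') : ∃ y ∈ Kb, algebraMap k C y = ψ (algebraMap k' C' y') := by
  have h1 : ψ (algebraMap k' C' y') ∈ (ψ.comp (algebraMap k' C')).fieldRange := ⟨y', rfl⟩
  rw [← hKb] at h1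
  obtain ⟨y, hy, hy'⟩ := h1
  exact ⟨y, hy, hy'⟩

theorem alg_mem {x : C} (hx : IsAlgebraic (Kb.map (algebraMap k C)) x) : ∃ y : C', ψ y = x := by
  have hac : IsAlgClosed C' := IsAlgClosure.isAlgClosed k'
  rw [hKb] at hx
  have hle : (ψ.comp (algebraMap k' C')).fieldRange ≤ ψ.fieldRange := by
    rintro _ ⟨y, rfl⟩
    exact ⟨algebraMap k' C' y, rfl⟩
  let i : Algebra (ψ.comp (algebraMap k' C')).fieldRange ψ.fieldRange :=
    (Subfield.inclusion hle).toAlgebra
  have i2 : IsScalarTower (ψ.comp (algebraMap k' C')).fieldRange ψ.fieldRange C :=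
    IsScalarTower.of_algebraMap_eq fun _ => rfl
  exact PC.mem_range_of_alg ψ (hx.tower_top ψ.fieldRange)

end alg

section restr

variable {k' C' C : Type u} [Field k'] [Field C'] [Algebra k' C'] [IsAlgClosure k' C']
  [Field C] (ψ : C' →+* C)

theorem exists_restr (σ : C →+* C) (hσ : ∀ a : k', σ (ψ (algebraMap k' C' a)) =
      ψ (algebraMap k' C' a)) : ∃ σ' : C' ≃ₐ[k'] C', ∀ y, ψ (σ' y) = σ (ψ y) := by
  have hac : IsAlgClosed C' := IsAlgClosure.isAlgClosed k'
  have halg : Algebra.IsAlgebraic k' C' := IsAlgClosure.isAlgebraic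
  have hmem : ∀ y : C', σ (ψ y) ∈ ψ.fieldRange := by
    intro y
    apply PC.mem_range_of_alg ψ
    obtain ⟨q, hq0, hq⟩ := halg.isAlgebraic y
    let q' : Polynomial ψ.fieldRange := q.map (ψ.rangeRestrictField.comp (algebraMap k' C'))
    refine ⟨q', (Polynomial.map_ne_zero_iff (RingHom.injective _)).2 hq0, ?_⟩
    have h1 := congrArg (fun z => σ (ψ z)) hq
    simp only [map_zero] at h1
    rw [← h1, Polynomial.aeval_def, Polynomial.aeval_def, Polynomial.eval₂_map,
      Polynomial.hom_eval₂, Polynomial.hom_eval₂]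
    congr 1
    refine RingHom.ext fun a => ?_
    exact (hσ a).symm
  have hex : ∀ y : C', ∃ y' : C', ψ y' = σ (ψ y) := fun y => by
    obtain ⟨y', hy'⟩ := hmem y
    exact ⟨y', hy'⟩
  choose g hg using hex
  have hinj : Function.Injective ψ := ψ.injective
  let τ : C' →ₐ[k'] C' :=
    { toFun := g
      map_one' := hinj (by rw [hg, map_one, map_one])
      map_mul' := fun a b => hinj (by rw [hg, map_mul, map_mul, map_mul, hg, hg])
      map_zero' := hinj (by rw [hg, map_zero, map_zero])
      map_add' := fun a b => hinj (by rw [hg, map_add, map_add, map_add, hg, hg])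
      commutes' := fun a => hinj (by rw [hg, hσ]) }
  exact ⟨AlgEquiv.ofBijective τ (Algebra.IsAlgebraic.algHom_bijective τ), fun y => hg y⟩

end restr

section lin

variable {F L : Type u} [Field F] [Field L] [Algebra F L]

/-- `Cop` descends. -/
theorem cop_descend {N n d M : ℕ} {U : Type} [Fintype U] {e : U → ℕ}
    {G G' : MonV (N + 2) n → F} {f : MonV (N + 2) d → F} {rel : ∀ u, MonV (N + 2) (e u) → F}
    (h : Cop (fun q => algebraMap F L (G q)) (fun q => algebraMap F L (G' q))
      (fun q => algebraMap F L (f q)) (fun u q => algebraMap F L (rel u q)) M) :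
    Cop G G' f rel M := by
  classical
  intro q
  obtain ⟨A, B, H, H', hq⟩ := h q
  obtain ⟨π, hπ⟩ := (Algebra.linearMap F L).exists_leftInverse_of_injective
    (LinearMap.ker_eq_bot.2 (algebraMap F L).injective)
  have hπ1 : ∀ c : F, π (algebraMap F L c) = c := fun c => congrArg (fun l : F →ₗ[F] F => l c) hπ
  refine ⟨fun a => π (A a), fun a => π (B a), fun a => π (H a), fun u a => π (H' u a), ?_⟩
  ext s
  have h1 := congrArg (fun P => π (MvPolynomial.coeff s P)) hq
  simp only [comb, MvPolynomial.coeff_add, map_add, MvPolynomial.coeff_sum, map_sum] at h1 ⊢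
  rw [coeff_mul_retract π (P := pol A) (coeff_pol_retract π A),
    coeff_mul_retract π (P := pol B) (coeff_pol_retract π B),
    coeff_mul_retract π (P := pol H) (coeff_pol_retract π H)]
  simp only [coeff_mul_retract π (coeff_pol_retract π (H' _)), map_pol]
  refine h1.trans ?_
  rw [MvPolynomial.coeff_monomial, MvPolynomial.coeff_monomial]
  split_ifs
  · rw [← map_one (algebraMap F L), hπ1]
  · rw [map_zero]

/-- the norm identity descends -/
theorem nrm_descend {N n nf nD nD' nM : ℕ} {U : Type} [Fintype U] {e : U → ℕ}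
    {G : MonV (N + 2) n → F} {f : MonV (N + 2) nf → F} {rel : ∀ u, MonV (N + 2) (e u) → F}
    {D : MonV (N + 2) nD → F} {D' : MonV (N + 2) nD' → L} {D'' : U → MonV (N + 2) nD' → L}
    {c : Fin (nM + 1) → F}
    (h : pol (fun q => algebraMap F L (D q)) * pol (fun q => algebraMap F L (G q)) +
      comb (fun q => algebraMap F L (f q)) (fun u q => algebraMap F L (rel u q)) D' D'' =
      polX fun l => algebraMap F L (c l)) :
    ∃ (D₀' : MonV (N + 2) nD' → F) (D₀'' : U → MonV (N + 2) nD' → F),
      pol D * pol G + comb f rel D₀' D₀'' = polX c := by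
  obtain ⟨H₀, H₀', h0⟩ := comb_descend (F := F) (L := L) (P := polX c - pol D * pol G) (f := f)
    (rel := rel) (H := D') (H' := D'') (by
      rw [map_sub, map_mul, map_pol, map_pol, map_polX, ← h, add_sub_cancel_left])
  exact ⟨H₀, H₀', by rw [← h0, add_sub_cancel]⟩

/-- the product identity descends -/
theorem prod_descend {N n nf nW a b d p : ℕ} {U : Type} [Fintype U] {e : U → ℕ}
    {G : Fin d → MonV (N + 2) n → F} {W : MonV (N + 2) nW → F} {T : F}
    {f : MonV (N + 2) nf → F} {rel : ∀ u, MonV (N + 2) (e u) → F}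
    {H : MonV (N + 2) a → L} {H' : U → MonV (N + 2) b → L}
    (h : ∏ i, pol (fun q => algebraMap F L (G i q)) = MvPolynomial.C (algebraMap F L T) *
      pol (fun q => algebraMap F L (W q)) ^ p +
      comb (fun q => algebraMap F L (f q)) (fun u q => algebraMap F L (rel u q)) H H') :
    ∃ (H₀ : MonV (N + 2) a → F) (H₀' : U → MonV (N + 2) b → F),
      ∏ i, pol (G i) = MvPolynomial.C T * pol W ^ p + comb f rel H₀ H₀' := by
  obtain ⟨H₀, H₀', h0⟩ := comb_descend (F := F) (L := L)
    (P := ∏ i, pol (G i) - MvPolynomial.C T * pol W ^ p) (f := f) (rel := rel) (H := H) (H' := H') (by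
      rw [map_sub, map_prod, map_mul, map_pow, MvPolynomial.map_C, map_pol]
      simp only [map_pol]
      rw [h, add_sub_cancel_left])
  exact ⟨H₀, H₀', by rw [← h0, add_sub_cancel]⟩

end lin

end Pool.Agent.GS
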