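import Pool.Agent.Helper77.GS.Defs
import Pool.Agent.Helper97.GH.Contra

/-!
# GS, block W: hyperplanes in special position
-/

set_option autoImplicit false

namespace Pool.Agent.GS

open Finset

universe u

section closure

variable {k K : Type u} [Field k] [Field K] [Algebra k K]

theorem mem_cl97 {s : Set K} {a : K} : a ∈ cl k s ↔ IsAlgebraic (Algebra.adjoin k s) a := by
  unfold cl
  rw [AlgebraicIndependent.matroid_closure_eq]
  exact Iff.rfl

theorem cl97_sub (s : Set K) : s ⊆ cl k s := fun a ha =>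
  mem_cl97.2 (isAlgebraic_algebraMap (⟨a, Algebra.subset_adjoin ha⟩ : Algebra.adjoin k s))

theorem cl97_add {s : Set K} {a b : K} (ha : a ∈ cl k s) (hb : b ∈ cl k s) : a + b ∈ cl k s := by
  rw [mem_cl97] at *
  exact ha.add hb

theorem cl97_neg {s : Set K} {a : K} (ha : a ∈ cl k s) : -a ∈ cl k s := by
  rw [mem_cl97] at *
  exact ha.neg

theorem cl97_mul {s : Set K} {a b : K} (ha : a ∈ cl k s) (hb : b ∈ cl k s) : a * b ∈ cl k s := by
  rw [mem_cl97] at *
  exact ha.mul hb

theorem cl97_inv {s : Set K} {a : K} (ha : a ∈ cl k s) : a⁻¹ ∈ cl k s := by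
  rw [mem_cl97] at *
  exact IsAlgebraic.inv_iff.mpr ha

theorem cl97_div {s : Set K} {a b : K} (ha : a ∈ cl k s) (hb : b ∈ cl k s) : a / b ∈ cl k s := by
  rw [div_eq_mul_inv]
  exact cl97_mul ha (cl97_inv hb)

theorem cl97_zero {s : Set K} : (0 : K) ∈ cl k s := by
  rw [mem_cl97]
  exact isAlgebraic_zero

theorem cl97_sum {s : Set K} {ι : Type*} (t : Finset ι) (f : ι → K) (h : ∀ i ∈ t, f i ∈ cl k s) :
    ∑ i ∈ t, f i ∈ cl k s := by
  classical
  induction t using Finset.induction_on with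
  | empty => simpa using cl97_zero
  | insert a t ha ih =>
    rw [Finset.sum_insert ha]
    exact cl97_add (h a (Finset.mem_insert_self a t)) (ih fun i hi => h i (Finset.mem_insert_of_mem hi))

/-- Counting: if the members of `D` depend on the others and on a set of rank `≤ n`, then `D` has at most `n` elements. -/
theorem count97 {J : Type*} [Fintype J] [DecidableEq J] (w : J → K) (hw : AlgebraicIndependent k w)
    (D : Finset J) (X : Set K) (n : ℕ) (hX : rk k X ≤ n)
    (h : ∀ j ∈ D, w j ∈ cl k (w '' ((Dᶜ : Finset J) : Set J) ∪ X)) : D.card ≤ n := by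
  have hinj : Function.Injective w := hw.injective
  let M := AlgebraicIndependent.matroid k K
  have hind : M.Indep (Set.range w) := AlgebraicIndependent.coe_range hw
  have h1 : M.eRk (Set.range w) = Fintype.card J := by
    rw [hind.eRk_eq_encard, ← Set.image_univ, hinj.encard_image, Set.encard_univ]
    simp
  have hsub : Set.range w ⊆ M.closure (w '' ((Dᶜ : Finset J) : Set J) ∪ X) := by
    rintro _ ⟨j, rfl⟩
    by_cases hj : j ∈ D
    · exact h j hj
    · exact cl97_sub (k := k) _ (Or.inl ⟨j, by simpa using hj, rfl⟩)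
  have h2 : M.eRk (Set.range w) ≤ M.eRk (w '' ((Dᶜ : Finset J) : Set J) ∪ X) := by
    rw [← M.eRk_closure_eq (w '' ((Dᶜ : Finset J) : Set J) ∪ X)]
    exact M.eRk_mono hsub
  have h3 := h2.trans (M.eRk_union_le_encard_add_eRk _ _)
  rw [h1, hinj.encard_image, Set.encard_coe_eq_coe_finsetCard, Finset.card_compl] at h3
  have h4 : ((Fintype.card J : ℕ) : ℕ∞) ≤ ((Fintype.card J - D.card : ℕ) : ℕ∞) + n :=
    h3.trans (add_le_add_right hX _)
  have h5 : Fintype.card J ≤ Fintype.card J - D.card + n := by exact_mod_cast h4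
  have h6 : D.card ≤ Fintype.card J := Finset.card_le_univ D
  omega

end closure

open Classical in
theorem zeros97 {k K : Type u} [Field k] [Field K] [Algebra k K] {N n q : ℕ}
    (I : Set (MvPolynomial (Fin (N + 1)) k)) (hD : Dim k I n)
    (A V : Finset (Fin q)) (ι : Fin q → Fin q) (hc : Comb n A V ι)
    (ℓ : Fin q → Fin (N + 1) → K) (μ : Fin q → Fin q → K)
    (hind : AlgebraicIndependent k (Sum.elim
      (fun p : {g : Fin q // ∀ i ∈ V, g ≠ ι i} × Fin (N + 1) => ℓ p.1 p.2)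
      (fun p : {i : Fin q // i ∈ V} × {a : Fin q // a ∈ A} => μ p.1 p.2)))
    (hℓ : ∀ i ∈ V, ∀ j, ℓ (ι i) j = ℓ i j + ∑ a ∈ A, μ i a * ℓ a j)
    (x : Fin (N + 1) → K) (hx : x ≠ 0) (hX : OnX I x) :
    (univ.filter fun g => dt (ℓ g) x = 0).card ≤ n ∨
      (A ⊆ univ.filter fun g => dt (ℓ g) x = 0) ∧ (univ.filter fun g => dt (ℓ g) x = 0).card = n + 1 := by
  set Z := univ.filter fun g => dt (ℓ g) x = 0 with hZ
  have hmemZ : ∀ g, g ∈ Z ↔ dt (ℓ g) x = 0 := fun g => by simp [hZ]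
  obtain ⟨m, hm⟩ := Function.ne_iff.1 hx
  have hm0 : x m ≠ 0 := hm
  have hrk : rk k (Rat x) ≤ n := hD K x hX
  have hξ : ∀ g, dt (ℓ g) x = x m * ∑ j, ℓ g j * (x j / x m) := by
    intro g
    rw [dt, Finset.mul_sum]
    refine Finset.sum_congr rfl fun j _ => ?_
    field_simp
  have hdt : ∀ i ∈ V, dt (ℓ (ι i)) x = dt (ℓ i) x + ∑ a ∈ A, μ i a * dt (ℓ a) x := by
    intro i hi
    simp only [dt]
    rw [Finset.sum_congr rfl fun j _ => by rw [hℓ i hi j, add_mul], Finset.sum_add_distrib]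
    congr 1
    rw [Finset.sum_congr rfl fun j _ => Finset.sum_mul _ _ _, Finset.sum_comm]
    refine Finset.sum_congr rfl fun a _ => ?_
    rw [Finset.mul_sum]
    exact Finset.sum_congr rfl fun j _ => by ring
  -- ordinary forms
  have hordA : ∀ a ∈ A, ∀ i ∈ V, a ≠ ι i := fun a ha i hi h => hc.ιA i hi (h ▸ ha)
  let J := ({g : Fin q // ∀ i ∈ V, g ≠ ι i} × Fin (N + 1)) ⊕ ({i : Fin q // i ∈ V} × {a : Fin q // a ∈ A})
  let w : J → K := Sum.elim
      (fun p : {g : Fin q // ∀ i ∈ V, g ≠ ι i} × Fin (N + 1) => ℓ p.1 p.2)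
      (fun p : {i : Fin q // i ∈ V} × {a : Fin q // a ∈ A} => μ p.1 p.2)
  -- ordinary coefficients are in every closure in which the other ones are
  have hord : ∀ S : Set K, Rat x ⊆ cl k S → (∀ g : {g : Fin q // ∀ i ∈ V, g ≠ ι i}, ∀ j,
      (j = m → (g : Fin q) ∉ Z) → ℓ g j ∈ cl k S) → ∀ g : Fin q, (∀ i ∈ V, g ≠ ι i) → ∀ j, ℓ g j ∈ cl k S := by
    intro S hS hS' g hg j
    by_cases hj : j = m → g ∉ Z
    · exact hS' ⟨g, hg⟩ j hj
    · push Not at hj
      obtain ⟨rfl, hgZ⟩ := hj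
      have h1 := (hmemZ g).1 hgZ
      rw [hξ] at h1
      have h2 := (mul_eq_zero.1 h1).resolve_left hm0
      rw [← Finset.add_sum_erase _ _ (Finset.mem_univ j), div_self hm0, mul_one] at h2
      rw [eq_neg_of_add_eq_zero_left h2]
      refine cl97_neg (cl97_sum _ _ fun j' hj' => cl97_mul (hS' ⟨g, hg⟩ j' ?_) (hS ⟨j', j, rfl⟩))
      intro h3
      exact absurd h3 (Finset.ne_of_mem_erase hj')
  let Zo := Z.filter fun g => ∀ i ∈ V, g ≠ ι i
  let Vz := V.filter fun i => ι i ∈ Z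
  have hcard : Z.card ≤ Zo.card + Vz.card := by
    have h1 : Z ⊆ Zo ∪ Vz.image ι := by
      intro g hg
      by_cases h : ∀ i ∈ V, g ≠ ι i
      · exact Finset.mem_union_left _ (Finset.mem_filter.2 ⟨hg, h⟩)
      · push Not at h
        obtain ⟨i, hi, rfl⟩ := h
        exact Finset.mem_union_right _ (Finset.mem_image.2 ⟨i, Finset.mem_filter.2 ⟨hi, hg⟩, rfl⟩)
    exact (Finset.card_le_card h1).trans ((Finset.card_union_le _ _).trans
      (Nat.add_le_add_left Finset.card_image_le _))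
  let e₁ : Zo → J := fun g => Sum.inl (⟨g.1, (Finset.mem_filter.1 g.2).2⟩, m)
  have he₁ : Function.Injective e₁ := by
    intro g g' h
    have h1 := (Prod.ext_iff.1 (Sum.inl_injective h)).1
    have h2 := congrArg Subtype.val h1
    exact Subtype.ext h2
  let D₁ : Finset J := Zo.attach.image e₁
  have hD₁ : D₁.card = Zo.card := by
    rw [Finset.card_image_of_injective _ he₁, Finset.card_attach]
  have hmem₁ : ∀ (g : {g : Fin q // ∀ i ∈ V, g ≠ ι i}) (j : Fin (N + 1)), (Sum.inl (g, j) : J) ∈ D₁ ↔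
      j = m ∧ (g : Fin q) ∈ Z := by
    intro g j
    constructor
    · intro h
      obtain ⟨g', -, hg'⟩ := Finset.mem_image.1 h
      have h1 := Prod.ext_iff.1 (Sum.inl_injective hg')
      refine ⟨h1.2.symm, ?_⟩
      have h2 : g'.1 = (g : Fin q) := congrArg Subtype.val h1.1
      rw [← h2]
      exact (Finset.mem_filter.1 g'.2).1
    · rintro ⟨rfl, h⟩
      exact Finset.mem_image.2 ⟨⟨g.1, Finset.mem_filter.2 ⟨h, g.2⟩⟩, Finset.mem_attach _ _, rfl⟩
  by_cases hAZ : A ⊆ Z
  · -- all of `A`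
    have hZo : Zo.card ≤ n := by
      rw [← hD₁]
      refine count97 w hind D₁ (Rat x) n hrk ?_
      intro j hj
      obtain ⟨g, -, rfl⟩ := Finset.mem_image.1 hj
      refine hord _ (fun z hz => cl97_sub _ (Or.inr hz)) ?_ g.1 (Finset.mem_filter.1 g.2).2 m
      intro g' j' hj'
      refine cl97_sub _ (Or.inl ⟨Sum.inl (g', j'), ?_, rfl⟩)
      rw [Finset.mem_coe, Finset.mem_compl, hmem₁]
      rintro ⟨h1, h2⟩
      exact hj' h1 h2
    have hAZo : A ⊆ Zo := fun a ha => Finset.mem_filter.2 ⟨hAZ ha, hordA a ha⟩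
    have hVz : Vz ⊆ Zo \ A := by
      intro i hi
      obtain ⟨hi, hiZ⟩ := Finset.mem_filter.1 hi
      refine Finset.mem_sdiff.2 ⟨Finset.mem_filter.2 ⟨?_, fun i' hi' => hc.VV i hi i' hi'⟩, hc.iA i hi⟩
      rw [hmemZ] at hiZ ⊢
      rw [hdt i hi, Finset.sum_eq_zero, add_zero] at hiZ
      · exact hiZ
      · intro a ha
        rw [(hmemZ a).1 (hAZ ha), mul_zero]
    have h1 := Finset.card_le_card hVz
    rw [Finset.card_sdiff_of_subset hAZo] at h1
    have h2 := Finset.card_le_card hAZo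
    have h3 := hc.card
    by_cases h4 : Z.card ≤ n
    · exact Or.inl h4
    · exact Or.inr ⟨hAZ, by omega⟩
  · left
    obtain ⟨a₀, ha₀, ha₀Z⟩ := Finset.not_subset.1 hAZ
    let e₂ : Vz → J := fun i => Sum.inr (⟨i.1, (Finset.mem_filter.1 i.2).1⟩, ⟨a₀, ha₀⟩)
    have he₂ : Function.Injective e₂ := by
      intro g g' h
      have h1 := (Prod.ext_iff.1 (Sum.inr_injective h)).1
      have h2 := congrArg Subtype.val h1
      exact Subtype.ext h2
    let D₂ : Finset J := Vz.attach.image e₂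
    have hD₂ : D₂.card = Vz.card := by
      rw [Finset.card_image_of_injective _ he₂, Finset.card_attach]
    have hdisj : Disjoint D₁ D₂ := by
      rw [Finset.disjoint_left]
      intro j h1 h2
      obtain ⟨g, -, hg⟩ := Finset.mem_image.1 h1
      obtain ⟨i, -, hi⟩ := Finset.mem_image.1 h2
      rw [← hg] at hi
      exact Sum.inr_ne_inl hi
    have hDcard : (D₁ ∪ D₂).card ≤ n := by
      refine count97 w hind (D₁ ∪ D₂) (Rat x) n hrk ?_
      have hS : Rat x ⊆ cl k (w '' (((D₁ ∪ D₂)ᶜ : Finset J) : Set J) ∪ Rat x) :=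
        fun z hz => cl97_sub _ (Or.inr hz)
      have hall := hord (w '' (((D₁ ∪ D₂)ᶜ : Finset J) : Set J) ∪ Rat x) hS (by
        intro g' j' hj'
        refine cl97_sub _ (Or.inl ⟨Sum.inl (g', j'), ?_, rfl⟩)
        rw [Finset.mem_coe, Finset.mem_compl, Finset.mem_union, not_or, hmem₁]
        refine ⟨fun h => hj' h.1 h.2, fun h => ?_⟩
        obtain ⟨i, -, hi⟩ := Finset.mem_image.1 h
        exact Sum.inr_ne_inl hi)
      intro j hj
      rcases Finset.mem_union.1 hj with h | h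
      · obtain ⟨g, -, rfl⟩ := Finset.mem_image.1 h
        exact hall g.1 (Finset.mem_filter.1 g.2).2 m
      · obtain ⟨i, -, rfl⟩ := Finset.mem_image.1 h
        obtain ⟨hiV, hiZ⟩ := Finset.mem_filter.1 i.2
        show μ i.1 a₀ ∈ _
        have h1 := (hmemZ _).1 hiZ
        rw [hdt i.1 hiV, ← Finset.add_sum_erase _ _ ha₀] at h1
        simp only [hξ] at h1
        have hne : (∑ j, ℓ a₀ j * (x j / x m)) ≠ 0 := by
          intro h0
          apply ha₀Z
          rw [hmemZ, hξ, h0, mul_zero]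
        have h2 : μ i.1 a₀ = -((∑ j, ℓ i.1 j * (x j / x m)) +
            ∑ a ∈ A.erase a₀, μ i.1 a * ∑ j, ℓ a j * (x j / x m)) / (∑ j, ℓ a₀ j * (x j / x m)) := by
          rw [eq_div_iff hne]
          have h3 : x m * ((∑ j, ℓ i.1 j * (x j / x m)) + μ i.1 a₀ * (∑ j, ℓ a₀ j * (x j / x m)) +
              ∑ a ∈ A.erase a₀, μ i.1 a * ∑ j, ℓ a j * (x j / x m)) = 0 := by
            have h5 : ∑ a ∈ A.erase a₀, μ i.1 a * (x m * ∑ j, ℓ a j * (x j / x m)) =
                x m * ∑ a ∈ A.erase a₀, μ i.1 a * ∑ j, ℓ a j * (x j / x m) := by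
              rw [Finset.mul_sum]
              exact Finset.sum_congr rfl fun a _ => by ring
            rw [h5] at h1
            linear_combination h1
          have h4 := (mul_eq_zero.1 h3).resolve_left hm0
          linear_combination h4
        rw [h2]
        refine cl97_div (cl97_neg (cl97_add ?_ ?_)) ?_
        · exact cl97_sum _ _ fun j _ => cl97_mul (hall i.1 (fun i' hi' => hc.VV i.1 hiV i' hi') j) (hS ⟨j, m, rfl⟩)
        · refine cl97_sum _ _ fun a ha => cl97_mul ?_ ?_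
          · refine cl97_sub _ (Or.inl ⟨Sum.inr (⟨i.1, hiV⟩, ⟨a, Finset.mem_of_mem_erase ha⟩), ?_, rfl⟩)
            rw [Finset.mem_coe, Finset.mem_compl, Finset.mem_union, not_or]
            constructor
            · intro h3
              obtain ⟨g, -, hg⟩ := Finset.mem_image.1 h3
              exact Sum.inl_ne_inr hg
            · intro h3
              obtain ⟨i', -, hi'⟩ := Finset.mem_image.1 h3
              have h4 := (Prod.ext_iff.1 (Sum.inr_injective hi')).2
              exact Finset.ne_of_mem_erase ha (congrArg Subtype.val h4).symm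
          · exact cl97_sum _ _ fun j _ => cl97_mul (hall a (hordA a (Finset.mem_of_mem_erase ha)) j)
              (hS ⟨j, m, rfl⟩)
        · exact cl97_sum _ _ fun j _ => cl97_mul (hall a₀ (hordA a₀ ha₀) j) (hS ⟨j, m, rfl⟩)
    rw [Finset.card_union_of_disjoint hdisj, hD₁, hD₂] at hDcard
    omega

theorem special {k K : Type u} [Field k] [Field K] [Algebra k K] {N n q r : ℕ}
    (I : Set (MvPolynomial (Fin (N + 1)) k)) (hD : Dim k I n) (hn : 2 ≤ n) (hq : r * n + 2 ≤ q)
    (A V : Finset (Fin q)) (ι : Fin q → Fin q) (hc : Comb n A V ι)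
    (ℓ : Fin q → Fin (N + 1) → K) (μ : Fin q → Fin q → K)
    (hind : AlgebraicIndependent k (Sum.elim
      (fun p : {g : Fin q // ∀ i ∈ V, g ≠ ι i} × Fin (N + 1) => ℓ p.1 p.2)
      (fun p : {i : Fin q // i ∈ V} × {a : Fin q // a ∈ A} => μ p.1 p.2)))
    (hℓ : ∀ i ∈ V, ∀ j, ℓ (ι i) j = ℓ i j + ∑ a ∈ A, μ i a * ℓ a j)
    (x : Fin r → Fin (N + 1) → K) (hx : ∀ σ, x σ ≠ 0) (hX : ∀ σ, OnX I (x σ)) :
    ∃ g, ∀ σ, dt (ℓ g) (x σ) ≠ 0 := by
  classical
  by_contra hcon
  push Not at hcon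
  have h1 := Pool.Agent.Helper97.GH.union_card hn A hc.card (fun σ => univ.filter fun g => dt (ℓ g) (x σ) = 0)
    fun σ => zeros97 I hD A V ι hc ℓ μ hind hℓ (x σ) (hx σ) (hX σ)
  have h2 : (univ : Finset (Fin q)) ⊆ univ.biUnion fun σ => univ.filter fun g => dt (ℓ g) (x σ) = 0 := by
    intro g _
    obtain ⟨σ, hσ⟩ := hcon g
    exact Finset.mem_biUnion.2 ⟨σ, Finset.mem_univ _, Finset.mem_filter.2 ⟨Finset.mem_univ _, hσ⟩⟩
  have h3 := Finset.card_le_card h2
  rw [Finset.card_univ, Fintype.card_fin] at h3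
  omega

end Pool.Agent.GS
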