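import Pool.Agent.Helper97.GS.LevAt

/-!
# Project GS, block (L'): transport of the constants to a larger algebraically closed field
-/

universe u v

set_option linter.unusedSectionVars false

namespace Pool.Agent.GS

open Polynomial Pool.Agent.Helper37.UL Pool.Agent.BT Pool.Agent.OPG

section levz

variable {k' C' k C : Type u} [Field k'] [Field C'] [Algebra k' C'] [IsAlgClosure k' C'] [Field k]
  [Field C] [Algebra k C] (ψ : C' →+* C) {Kb : Subfield k}
  (hKb : Kb.map (algebraMap k C) = (ψ.comp (algebraMap k' C')).fieldRange)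

include hKb

theorem restr_aut (σ : C ≃ₐ[k] C) : ∃ σ' : C' ≃ₐ[k'] C', ∀ y, ψ (σ' y) = σ (ψ y) := by
  refine exists_restr ψ (σ : C →+* C) fun a => ?_
  obtain ⟨b, _, hb⟩ := kb_mem' ψ hKb a
  rw [← hb]
  exact σ.commutes b

theorem levZ_map {p d : ℕ} {ι κ : Type} {G : Fin d → ι → C'} {W : κ → C'} {T' : k'} {T : k}
    (hT : algebraMap k C T = ψ (algebraMap k' C' T')) {z : Fin d → Fin d → C'}
    (h : LevZ p G W T' z) :
    LevZ p (fun i q => ψ (G i q)) (fun q => ψ (W q)) T (fun i j => ψ (z i j)) := by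
  have hinj : Function.Injective ψ := ψ.injective
  have hac : IsAlgClosed C' := IsAlgClosure.isAlgClosed k'
  refine ⟨fun i j hij h0 => ?_, fun i j hij => ?_, fun σ i j i' j' hij hij' h1 h2 => ?_,
    fun i j l hij hjl hil => ?_, fun α hα i => ?_⟩
  · exact h.ne i j hij (hinj (by rw [h0, map_zero]))
  · have h1 := map_mem_adjoin_mu ψ hKb
      (X := Set.range (fun q => ψ (G i q)) ∪ Set.range (fun q => ψ (G j q))) (by
      rintro _ (⟨q, rfl⟩ | ⟨q, rfl⟩)
      · exact Or.inl ⟨q, rfl⟩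
      · exact Or.inr ⟨q, rfl⟩) (h.pow i j hij)
    rw [map_pow] at h1
    exact h1
  · obtain ⟨σ', hσ'⟩ := restr_aut ψ hKb σ
    have h3 := h.equi σ' i j i' j' hij hij' (fun q => hinj (by rw [hσ']; exact h1 q))
      (fun q => hinj (by rw [hσ']; exact h2 q))
    have h4 := map_mem_adjoin_mu ψ hKb
      (X := Set.range (fun q => ψ (G i' q)) ∪ Set.range (fun q => ψ (G j' q))) (by
      rintro _ (⟨q, rfl⟩ | ⟨q, rfl⟩)
      · exact Or.inl ⟨q, rfl⟩
      · exact Or.inr ⟨q, rfl⟩) h3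
    rw [map_div₀, hσ'] at h4
    exact h4
  · have h4 := map_mem_adjoin_mu ψ hKb
      (X := Set.range (fun q => ψ (G i q)) ∪ Set.range (fun q => ψ (G j q)) ∪
        Set.range (fun q => ψ (G l q))) (by
      rintro _ ((⟨q, rfl⟩ | ⟨q, rfl⟩) | ⟨q, rfl⟩)
      · exact Or.inl (Or.inl ⟨q, rfl⟩)
      · exact Or.inl (Or.inr ⟨q, rfl⟩)
      · exact Or.inr ⟨q, rfl⟩) (h.coc i j l hij hjl hil)
    rw [map_div₀, map_mul] at h4
    exact h4
  · rcases Nat.eq_zero_or_pos p with rfl | hp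
    · apply IntermediateField.subset_adjoin
      left
      exact pow_zero _
    · obtain ⟨α', hα'⟩ : ∃ α' : C', α' ^ p = algebraMap k' C' T' :=
        IsAlgClosed.exists_pow_nat_eq _ hp
      have hαr : α ∈ ψ.fieldRange := by
        apply PC.mem_range_of_alg ψ
        let c₀ : ψ.fieldRange := ⟨ψ (algebraMap k' C' T'), ⟨_, rfl⟩⟩
        refine ⟨X ^ p - Polynomial.C c₀, (monic_X_pow_sub_C c₀ hp.ne').ne_zero, ?_⟩
        rw [map_sub, map_pow, aeval_X, aeval_C, hα, hT]
        exact sub_self _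
      obtain ⟨β, rfl⟩ := hαr
      have hβ : β ^ p = algebraMap k' C' T' := hinj (by rw [map_pow, hα, hT])
      have h4 := map_mem_adjoin_mu ψ hKb
        (X := (⋃ j, Set.range (fun q => ψ (G j q))) ∪ Set.range (fun q => ψ (W q))) (by
        rintro x (hx | ⟨q, rfl⟩)
        · left
          rw [Set.mem_iUnion] at hx ⊢
          obtain ⟨j, q, rfl⟩ := hx
          exact ⟨j, q, rfl⟩
        · exact Or.inr ⟨q, rfl⟩) (h.prod β hβ i)
      rw [map_div₀, map_prod] at h4
      exact h4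

theorem levZQ_map {ι κ : Type} {G : Fin 4 → ι → C'} {W : κ → C'} {T' : k'} {T : k}
    (hT : algebraMap k C T = ψ (algebraMap k' C' T')) {z : Fin 4 → Fin 4 → C'}
    (h : TQ.LevZQ G W T' z) :
    TQ.LevZQ (fun i q => ψ (G i q)) (fun q => ψ (W q)) T (fun i j => ψ (z i j)) := by
  have hinj : Function.Injective ψ := ψ.injective
  refine ⟨fun i j hij h0 => ?_, fun i j hij => ?_, fun σ i j i' j' hij hij' h1 h2 => ?_,
    fun i j l hij hjl hil => ?_, fun α hα => ?_⟩
  · exact h.ne i j hij (hinj (by rw [h0, map_zero]))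
  · have h1 := map_mem_adjoin_mu ψ hKb
      (X := Set.range (fun q => ψ (G i q)) ∪ Set.range (fun q => ψ (G j q))) (by
      rintro _ (⟨q, rfl⟩ | ⟨q, rfl⟩)
      · exact Or.inl ⟨q, rfl⟩
      · exact Or.inr ⟨q, rfl⟩) (h.pow i j hij)
    rw [map_pow] at h1
    exact h1
  · obtain ⟨σ', hσ'⟩ := restr_aut ψ hKb σ
    have h3 := h.equi σ' i j i' j' hij hij' (fun q => hinj (by rw [hσ']; exact h1 q))
      (fun q => hinj (by rw [hσ']; exact h2 q))
    have h4 := map_mem_adjoin_mu ψ hKb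
      (X := Set.range (fun q => ψ (G i' q)) ∪ Set.range (fun q => ψ (G j' q))) (by
      rintro _ (⟨q, rfl⟩ | ⟨q, rfl⟩)
      · exact Or.inl ⟨q, rfl⟩
      · exact Or.inr ⟨q, rfl⟩) h3
    rw [map_div₀, hσ'] at h4
    exact h4
  · have h4 := map_mem_adjoin_mu ψ hKb
      (X := Set.range (fun q => ψ (G i q)) ∪ Set.range (fun q => ψ (G j q)) ∪
        Set.range (fun q => ψ (G l q))) (by
      rintro _ ((⟨q, rfl⟩ | ⟨q, rfl⟩) | ⟨q, rfl⟩)
      · exact Or.inl (Or.inl ⟨q, rfl⟩)
      · exact Or.inl (Or.inr ⟨q, rfl⟩)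
      · exact Or.inr ⟨q, rfl⟩) (h.coc i j l hij hjl hil)
    rw [map_div₀, map_mul] at h4
    exact h4
  · have hαr : α ∈ ψ.fieldRange := by
      have hac : IsAlgClosed C' := IsAlgClosure.isAlgClosed k'
      apply PC.mem_range_of_alg ψ
      let c₀ : ψ.fieldRange := ⟨ψ (algebraMap k' C' T'), ⟨_, rfl⟩⟩
      refine ⟨X ^ 2 - Polynomial.C c₀, (monic_X_pow_sub_C c₀ two_ne_zero).ne_zero, ?_⟩
      rw [map_sub, map_pow, aeval_X, aeval_C, hα, hT]
      exact sub_self _
    obtain ⟨β, rfl⟩ := hαr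
    have hβ : β ^ 2 = algebraMap k' C' T' := hinj (by rw [map_pow, hα, hT])
    have h4 := map_mem_adjoin_mu ψ hKb
      (X := (⋃ j, Set.range (fun q => ψ (G j q))) ∪ Set.range (fun q => ψ (W q))) (by
      rintro x (hx | ⟨q, rfl⟩)
      · left
        rw [Set.mem_iUnion] at hx ⊢
        obtain ⟨j, q, rfl⟩ := hx
        exact ⟨j, q, rfl⟩
      · exact Or.inr ⟨q, rfl⟩) (h.prod β hβ)
    rw [map_div₀] at h4
    exact h4

end levz

/-- **(L') Transport of the constants** to a larger algebraically closed field. -/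
theorem transport {k₁ k' C' F k C : Type u} [Field k₁] [Field k'] [Field C'] [CharZero C']
    [Algebra k₁ k'] [Algebra k' C'] [IsAlgClosure k' C'] [Field F] [Field k] [Field C] [Algebra F k]
    [Algebra k C] [IsAlgClosed C] (ψ : C' →+* C) {Kb : Subfield k}
    (hKb : Kb.map (algebraMap k C) = (ψ.comp (algebraMap k' C')).fieldRange)
    (hk₁ : ∀ a : k₁, ∃ b : F, algebraMap k C (algebraMap F k b) =
      ψ (algebraMap k' C' (algebraMap k₁ k' a)))
    {p c₀ N d r : ℕ} {U : Type} [Fintype U] {e : U → ℕ}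
    {f : MonV (N + 2) d → k'} {rel : ∀ u, MonV (N + 2) (e u) → k'}
    {f₂ : MonV (N + 2) d → k} {rel₂ : ∀ u, MonV (N + 2) (e u) → k}
    (hf : ∀ q, algebraMap k C (f₂ q) = ψ (algebraMap k' C' (f q)))
    (hrel : ∀ u q, algebraMap k C (rel₂ u q) = ψ (algebraMap k' C' (rel u q)))
    (h : SX.HasLevX k₁ C' p c₀ r f rel) : HasLevG F C Kb p c₀ r f₂ rel₂ := by
  intro n M hnM G W a b H H' T hT hTKb hG hW hprod hcop M₂ M₂' M₃ D D' D'' c hc hD hcalg hnrm
  have hinj : Function.Injective ψ := ψ.injective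
  choose G₀ hG₀ using fun i q => alg_mem ψ hKb (hG i q)
  choose W₀ hW₀ using fun q => alg_mem ψ hKb (hW q)
  choose D₀ hD₀ using fun i q => alg_mem ψ hKb (hD i q)
  choose c₁ hc₁ using fun i q => alg_mem ψ hKb (hcalg i q)
  obtain ⟨T', hT'⟩ := kb_mem ψ hKb hTKb
  obtain rfl : G = fun i q => ψ (G₀ i q) := by funext i q; exact (hG₀ i q).symm
  obtain rfl : W = fun q => ψ (W₀ q) := by funext q; exact (hW₀ q).symm
  obtain rfl : D = fun i q => ψ (D₀ i q) := by funext i q; exact (hD₀ i q).symm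
  obtain rfl : c = fun i q => ψ (c₁ i q) := by funext i q; exact (hc₁ i q).symm
  have ef : (fun q => algebraMap k C (f₂ q)) = fun q => ψ (algebraMap k' C' (f q)) := by
    funext q; exact hf q
  have erel : (fun u q => algebraMap k C (rel₂ u q)) = fun u q => ψ (algebraMap k' C' (rel u q)) := by
    funext u q; exact hrel u q
  rw [ef, erel, hT'] at hprod
  simp only [ef, erel] at hcop hnrm
  let iA : Algebra C' C := ψ.toAlgebra
  obtain ⟨H₀, H₀', hprod'⟩ := prod_descend (F := C') (L := C) (G := G₀) (W := W₀)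
    (T := algebraMap k' C' T') (f := fun q => algebraMap k' C' (f q))
    (rel := fun u q => algebraMap k' C' (rel u q)) (H := H) (H' := H') hprod
  have hcop' : ∀ i j, i ≠ j → Cop (G₀ i) (G₀ j) (fun q => algebraMap k' C' (f q))
      (fun u q => algebraMap k' C' (rel u q)) M := fun i j hij =>
    cop_descend (F := C') (L := C) (hcop i j hij)
  have hnrm' := fun i => nrm_descend (F := C') (L := C) (G := G₀ i) (D := D₀ i) (c := c₁ i)
    (f := fun q => algebraMap k' C' (f q)) (rel := fun u q => algebraMap k' C' (rel u q)) (hnrm i)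
  choose D₁ D₂ hD₁ using hnrm'
  have hT'0 : T' ≠ 0 := by
    rintro rfl
    rw [map_zero, map_zero] at hT'
    exact hT ((algebraMap k C).injective (by rw [hT', map_zero]))
  have hc' : ∀ i, c₁ i ≠ 0 := by
    intro i h0
    apply hc i
    funext l
    change ψ (c₁ i l) = 0
    rw [h0, Pi.zero_apply, map_zero]
  obtain ⟨z, hz1, hz2⟩ := h hnM hT'0 hprod' hcop' hc' hD₁
  refine ⟨fun i j => ψ (z i j), levZ_map ψ hKb ?_ hz1, levG_of_small ψ hKb hk₁ hf hrel
    (levG_of_levIV ⊤ hz2)⟩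
  rw [map_pow, hT', map_pow, map_pow]

/-- **(L') Transport of the constants** to a larger algebraically closed field, two quadrics. -/
theorem transportQ {k₁ k' C' F k C : Type u} [Field k₁] [Field k'] [Field C'] [CharZero C']
    [Algebra k₁ k'] [Algebra k' C'] [IsAlgClosure k' C'] [Field F] [Field k] [Field C] [Algebra F k]
    [Algebra k C] [IsAlgClosed C] (ψ : C' →+* C) {Kb : Subfield k}
    (hKb : Kb.map (algebraMap k C) = (ψ.comp (algebraMap k' C')).fieldRange)
    (hk₁ : ∀ a : k₁, ∃ b : F, algebraMap k C (algebraMap F k b) =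
      ψ (algebraMap k' C' (algebraMap k₁ k' a)))
    {N d : ℕ} {U : Type} [Fintype U] {e : U → ℕ}
    {f : MonV (N + 2) d → k'} {rel : ∀ u, MonV (N + 2) (e u) → k'}
    {f₂ : MonV (N + 2) d → k} {rel₂ : ∀ u, MonV (N + 2) (e u) → k}
    (hf : ∀ q, algebraMap k C (f₂ q) = ψ (algebraMap k' C' (f q)))
    (hrel : ∀ u q, algebraMap k C (rel₂ u q) = ψ (algebraMap k' C' (rel u q)))
    (h : TQ.HasLevQ k₁ C' f rel) : HasLevQG F C Kb f₂ rel₂ := by
  intro n M hnM G nW nW₂ W W₂ a b a₂ b₂ H H' H₂ H₂' T hT hTKb hG hW hW₂ hprod hprod₂ hcop hcop₂ M₂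
    M₂' M₃ D D' D'' c hc hD hcalg hnrm
  have hinj : Function.Injective ψ := ψ.injective
  choose G₀ hG₀ using fun i q => alg_mem ψ hKb (hG i q)
  choose W₀ hW₀ using fun q => alg_mem ψ hKb (hW q)
  choose W₁ hW₁ using fun q => alg_mem ψ hKb (hW₂ q)
  choose D₀ hD₀ using fun i q => alg_mem ψ hKb (hD i q)
  choose c₁ hc₁ using fun i q => alg_mem ψ hKb (hcalg i q)
  obtain ⟨T', hT'⟩ := kb_mem ψ hKb hTKb
  obtain rfl : G = fun i q => ψ (G₀ i q) := by funext i q; exact (hG₀ i q).symm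
  obtain rfl : W = fun q => ψ (W₀ q) := by funext q; exact (hW₀ q).symm
  obtain rfl : W₂ = fun q => ψ (W₁ q) := by funext q; exact (hW₁ q).symm
  obtain rfl : D = fun i q => ψ (D₀ i q) := by funext i q; exact (hD₀ i q).symm
  obtain rfl : c = fun i q => ψ (c₁ i q) := by funext i q; exact (hc₁ i q).symm
  have ef : (fun q => algebraMap k C (f₂ q)) = fun q => ψ (algebraMap k' C' (f q)) := by
    funext q; exact hf q
  have erel : (fun u q => algebraMap k C (rel₂ u q)) = fun u q => ψ (algebraMap k' C' (rel u q)) := by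
    funext u q; exact hrel u q
  rw [ef, erel, hT'] at hprod
  rw [ef, erel] at hprod₂ hcop hcop₂
  simp only [ef, erel] at hnrm
  let iA : Algebra C' C := ψ.toAlgebra
  have hprod' : ∃ (H₀ : MonV (N + 2) a → C') (H₀' : U → MonV (N + 2) b → C'),
      pol (G₀ 0) * pol (G₀ 1) = MvPolynomial.C (algebraMap k' C' T') * pol W₀ ^ 2 +
        comb (fun q => algebraMap k' C' (f q)) (fun u q => algebraMap k' C' (rel u q)) H₀ H₀' := by
    obtain ⟨H₀, H₀', h0⟩ := comb_descend (F := C') (L := C)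
      (P := pol (G₀ 0) * pol (G₀ 1) - MvPolynomial.C (algebraMap k' C' T') * pol W₀ ^ 2)
      (f := fun q => algebraMap k' C' (f q)) (rel := fun u q => algebraMap k' C' (rel u q))
      (H := H) (H' := H') (by
        rw [map_sub, map_mul, map_mul, map_pow, MvPolynomial.map_C, map_pol, map_pol, map_pol]
        exact sub_eq_of_eq_add' hprod)
    exact ⟨H₀, H₀', by rw [← h0, add_sub_cancel]⟩
  have hprod₂' : ∃ (H₀ : MonV (N + 2) a₂ → C') (H₀' : U → MonV (N + 2) b₂ → C'),
      pol (G₀ 2) * pol (G₀ 3) = pol W₁ ^ 2 +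
        comb (fun q => algebraMap k' C' (f q)) (fun u q => algebraMap k' C' (rel u q)) H₀ H₀' := by
    obtain ⟨H₀, H₀', h0⟩ := comb_descend (F := C') (L := C)
      (P := pol (G₀ 2) * pol (G₀ 3) - pol W₁ ^ 2)
      (f := fun q => algebraMap k' C' (f q)) (rel := fun u q => algebraMap k' C' (rel u q))
      (H := H₂) (H' := H₂') (by
        rw [map_sub, map_mul, map_pow, map_pol, map_pol, map_pol]
        exact sub_eq_of_eq_add' hprod₂)
    exact ⟨H₀, H₀', by rw [← h0, add_sub_cancel]⟩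
  obtain ⟨H₀, H₀', hprod'⟩ := hprod'
  obtain ⟨H₁, H₁', hprod₂'⟩ := hprod₂'
  have hcop' : Cop (G₀ 0) (G₀ 1) (fun q => algebraMap k' C' (f q))
      (fun u q => algebraMap k' C' (rel u q)) M := cop_descend (F := C') (L := C) hcop
  have hcop₂' : Cop (G₀ 2) (G₀ 3) (fun q => algebraMap k' C' (f q))
      (fun u q => algebraMap k' C' (rel u q)) M := cop_descend (F := C') (L := C) hcop₂
  have hnrm' := fun i => nrm_descend (F := C') (L := C) (G := G₀ i) (D := D₀ i) (c := c₁ i)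
    (f := fun q => algebraMap k' C' (f q)) (rel := fun u q => algebraMap k' C' (rel u q)) (hnrm i)
  choose D₁ D₂ hD₁ using hnrm'
  have hT'0 : T' ≠ 0 := by
    rintro rfl
    rw [map_zero, map_zero] at hT'
    exact hT ((algebraMap k C).injective (by rw [hT', map_zero]))
  have hc' : ∀ i, c₁ i ≠ 0 := by
    intro i h0
    apply hc i
    funext l
    change ψ (c₁ i l) = 0
    rw [h0, Pi.zero_apply, map_zero]
  obtain ⟨z, hz1, hz2⟩ := h hnM hT'0 hprod' hprod₂' hcop' hcop₂' hc' hD₁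
  exact ⟨fun i j => ψ (z i j), levZQ_map ψ hKb hT' hz1, levG_of_small ψ hKb hk₁ hf hrel
    (levG_of_levIQ ⊤ hz2)⟩

end Pool.Agent.GS
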